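import Pool.Agent.H83.TN.Point
import Pool.Agent.H94.TL.NormD

/-!
# MP_1bad5e_ag: the surfaces `D(x) z ^ ℓ = P(t) (A(x) - B(x) t) ^ (ℓ - 1)`

`F` is a finite field, `K = F(x)`, `ℓ` is a prime dividing `|F| - 1`, `P ∈ F[t]` is monic and
irreducible of degree `m = ℓ g + 1 > 1`, `φ = A / B ∈ F(x)` is ANY rational function such that
`W = B ^ m P(A / B)` is squarefree, and `D ∈ F[x]` is a polynomial all of whose prime factors have
degree prime to `m`. Let `J` be the Jacobian (of dimension `(ℓ - 1) (m - 1) / 2`) of the curve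
`D z ^ ℓ = P(t) (A - B t) ^ (ℓ - 1)` over `K`, on which `ζ ∈ μ_ℓ` acts; a model of this curve is
`D B y ^ ℓ = f(U)` with `U = W / (A - B t)`.

If `W` has `r` prime factors then the `(1 - ζ)`-Selmer group of `J` has order at most `ℓ ^ r` for
all `D`, and it is zero for all `D` in at least `(1 - 1 / ℓ) ^ r` of the classes in `(F[x]/W)^*`.
If `W` is irreducible, it has order `1` or `ℓ`; it is zero if `-D B` is not an `ℓ`-th power
modulo `W`, and it has order `ℓ` and comes from `J(K)` if `D B = - s ^ ℓ` or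
`D = P(c) (A - c B) ^ (ℓ - 1) s ^ ℓ` with `c ∈ F`.
-/

namespace Pool.Agent.Results.MP_1bad5e_ag.PullbackTwists

open Polynomial IsDedekindDomain

/-- `W = B ^ m P(A / B)` where `m` is the degree of `P`. -/
noncomputable def pullback {F : Type} [Field F] (P A B : F[X]) : F[X] :=
  ∑ i ∈ Finset.range (P.natDegree + 1), C (P.coeff i) * A ^ i * B ^ (P.natDegree - i)

/-- The monic polynomial `f(U) = W ^ (m - 1) h(U / W)` over `F[x]`, where `m` is the degree of `P`
and `h(u) = ∑ p_i (A u - 1) ^ i (B u) ^ (m - i)`, with leading coefficient `W`. Its roots are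
`W / (A - τ B)`, where `τ` runs over the roots of `P`. -/
noncomputable def branch {F : Type} [Field F] (P A B : F[X]) : F[X][X] :=
  (∑ i ∈ Finset.range (P.natDegree + 1), C (C (P.coeff i)) * (C A * X - 1) ^ i *
    (C B * X) ^ (P.natDegree - i)).integralNormalization

/-- The polynomial `f` regarded as a polynomial in `U` over `K = F(x)`. -/
noncomputable def overK {F : Type} [Field F] (f : F[X][X]) : (RatFunc F)[X] :=
  f.map (algebraMap F[X] (RatFunc F))

/-- The polynomial `f` regarded as a polynomial in `U` over the completion `K_v`. -/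
noncomputable def overKv {F : Type} [Field F] (f : F[X][X]) (v : HeightOneSpectrum F[X]) :
    (v.adicCompletion (RatFunc F))[X] :=
  (overK f).map (algebraMap (RatFunc F) (v.adicCompletion (RatFunc F)))

/-- The natural map from `L = K[U]/(f)` to `L ⊗ K_v = K_v[U]/(f)`. -/
noncomputable def toKv {F : Type} [Field F] (f : F[X][X]) (v : HeightOneSpectrum F[X]) :
    AdjoinRoot (overK f) →+* AdjoinRoot (overKv f v) :=
  AdjoinRoot.map (algebraMap (RatFunc F) (v.adicCompletion (RatFunc F))) (overK f) (overKv f v)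
    dvd_rfl

/-- The image of `c ∈ F[x]` in the completion `K_v`. -/
noncomputable def constKv {F : Type} [Field F] (c : F[X]) (v : HeightOneSpectrum F[X]) :
    v.adicCompletion (RatFunc F) :=
  algebraMap (RatFunc F) (v.adicCompletion (RatFunc F)) (algebraMap F[X] (RatFunc F) c)

/-- `(P, Q)` represents, over the field `k`, an effective divisor on `c y ^ ℓ = g(U)` which is
disjoint from the points with `y = 0`, the points with `P(U) = 0` and `y = Q(U)`: `P` is monic,
prime to `g`, and divides `c Q ^ ℓ - g`. -/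
def IsMumford {k : Type} [Field k] (ℓ : ℕ) (c : k) (g P Q : k[X]) : Prop :=
  P.Monic ∧ IsCoprime P g ∧ P ∣ C c * Q ^ ℓ - g

/-- The value `∏ c ^ (ℓ - 1) (U(p) - θ) = (-c ^ (ℓ - 1)) ^ r P(θ)` of the function
`c ^ (ℓ - 1) (U - θ)` on the divisor, in `k[U]/(g)`, where `θ` is the class of `U` and `r` is the
degree of `P`. If the degree of `g` is `1` modulo `ℓ`, this function is on `c y ^ ℓ = g(U)` near
the point at infinity the `ℓ`-th power of a function with leading coefficient one. -/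
noncomputable def descent {k : Type} [Field k] (ℓ : ℕ) (c : k) (g P : k[X]) : AdjoinRoot g :=
  AdjoinRoot.mk g (C (-c ^ (ℓ - 1))) ^ P.natDegree * AdjoinRoot.mk g P

/-- The element `δ` of `k[U]/(g)` is, up to an `ℓ`-th power, a product of values of the descent
map of `c y ^ ℓ = g(U)`, that is, it comes from a point of the Jacobian over `k`. -/
def IsValue {k : Type} [Field k] (ℓ : ℕ) (c : k) (g : k[X]) (δ : AdjoinRoot g) : Prop :=
  ∃ (r : ℕ) (P Q : Fin r → k[X]) (γ : AdjoinRoot g),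
    (∀ i, IsMumford ℓ c g (P i) (Q i)) ∧ δ * γ ^ ℓ = ∏ i, descent ℓ c g (P i)

/-- `δ ∈ L^*`, `L = K[U]/(f)`, satisfies the conditions of the `(1 - ζ)`-Selmer group of the
Jacobian of `c y ^ ℓ = f(U)` at all finite places of `K = F(x)`: its norm to `K` is an `ℓ`-th
power and, for every prime `v` of `F[x]`, it is a value in `L ⊗ K_v`. -/
structure IsSelmer {F : Type} [Field F] (ℓ : ℕ) (c : F[X]) (f : F[X][X])
    (δ : AdjoinRoot (overK f)) : Prop where
  isUnit : IsUnit δ
  norm : ∃ y : RatFunc F, Algebra.norm (RatFunc F) δ = y ^ ℓ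
  locally : ∀ v : HeightOneSpectrum F[X], IsValue ℓ (constKv c v) (overKv f v) (toKv f v δ)

/-- The algebra `L = K[U]/(f)`, `K = F(x)`. -/
abbrev Alg {F : Type} [Field F] (P A B : F[X]) : Type := AdjoinRoot (overK (branch P A B))

/-- The class `θ` of `U` in `L`. -/
noncomputable def theta {F : Type} [Field F] (P A B : F[X]) : Alg P A B :=
  AdjoinRoot.root (overK (branch P A B))

/-- `δ` satisfies the Selmer conditions of `D B y ^ ℓ = f(U)` at the finite places of `K`, or it
comes from a point of the Jacobian over `K`. -/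
def IsClass {F : Type} [Field F] (ℓ : ℕ) (P A B D : F[X]) (δ : Alg P A B) : Prop :=
  IsSelmer ℓ (D * B) (branch P A B) δ ∨
    IsValue ℓ (algebraMap F[X] (RatFunc F) (D * B)) (overK (branch P A B)) δ

/-- The Selmer group is trivial: all its elements are `ℓ`-th powers in `L`. -/
def IsTrivial {F : Type} [Field F] (ℓ : ℕ) (P A B D : F[X]) : Prop :=
  ∀ δ : Alg P A B, IsClass ℓ P A B D δ → ∃ γ, δ = γ ^ ℓ

/-- The prime factors of `D` have degree prime to `m`. -/
def IsInert {F : Type} [Field F] (m : ℕ) (D : F[X]) : Prop :=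
  ∀ Q : F[X], Irreducible Q → Q ∣ D → Nat.Coprime Q.natDegree m

/-- The residue classes `b` in `(F[x]/W)^*` all of whose representatives `D` with prime factors of
degree prime to `deg P` have trivial Selmer group. -/
def goodClasses {F : Type} [Field F] (ℓ : ℕ) (P A B : F[X]) :
    Set (AdjoinRoot (pullback P A B))ˣ :=
  {b | ∀ D : F[X], AdjoinRoot.mk (pullback P A B) D = b → IsInert P.natDegree D →
    IsTrivial ℓ P A B D}

/-- The curve `D z ^ ℓ = P(t) (A - B t) ^ (ℓ - 1)` over `K` is the curve `D B y ^ ℓ = f(U)`, with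
`U = W / (A - B t)` and `y = (W B) ^ g z / (A - B t) ^ (g + 1)`. -/
def IsModel {F : Type} [Field F] (ℓ g : ℕ) (P A B D : F[X]) : Prop :=
  ∀ (M : Type) [Field M] [Algebra (RatFunc F) M] (ι : F[X] →+* M),
    ι = (algebraMap (RatFunc F) M).comp (algebraMap F[X] (RatFunc F)) →
    ∀ t z : M, ι A - ι B * t ≠ 0 →
    (ι D * z ^ ℓ = P.eval₂ (ι.comp C) t * (ι A - ι B * t) ^ (ℓ - 1) ↔
      ι (D * B) * ((ι (pullback P A B) * ι B) ^ g * z / (ι A - ι B * t) ^ (g + 1)) ^ ℓ =
        (branch P A B).eval₂ ι (ι (pullback P A B) / (ι A - ι B * t)))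

theorem toKv_mk {F : Type} [Field F] (f : F[X][X]) (v : HeightOneSpectrum F[X])
    (Δ : (RatFunc F)[X]) : toKv f v (AdjoinRoot.mk (overK f) Δ) =
      AdjoinRoot.mk (overKv f v)
        (Δ.map (algebraMap (RatFunc F) (v.adicCompletion (RatFunc F)))) := by
  have h1 : (toKv f v).comp (AdjoinRoot.mk (overK f)) = (AdjoinRoot.mk (overKv f v)).comp
      (mapRingHom (algebraMap (RatFunc F) (v.adicCompletion (RatFunc F)))) := by
    refine Polynomial.ringHom_ext (fun a => ?_) ?_
    · rw [RingHom.comp_apply, RingHom.comp_apply, AdjoinRoot.mk_C, toKv, AdjoinRoot.map_of,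
        coe_mapRingHom, Polynomial.map_C, AdjoinRoot.mk_C]
    · rw [RingHom.comp_apply, RingHom.comp_apply, AdjoinRoot.mk_X, toKv, AdjoinRoot.map_root,
        coe_mapRingHom, Polynomial.map_X, AdjoinRoot.mk_X]
  exact RingHom.congr_fun h1 Δ

theorem descent_isUnit {k : Type} [Field k] (ℓ : ℕ) (c : k) (hc : c ≠ 0) (g P : k[X])
    (hP : IsCoprime P g) : IsUnit (descent ℓ c g P) := by
  refine IsUnit.mul (IsUnit.pow _ ?_) ?_
  · have h1 : IsUnit (C (-c ^ (ℓ - 1)) : k[X]) := by
      rw [isUnit_C, isUnit_iff_ne_zero]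
      exact neg_ne_zero.2 (pow_ne_zero _ hc)
    exact h1.map _
  · obtain ⟨s, t, hst⟩ := hP
    refine IsUnit.of_mul_eq_one (AdjoinRoot.mk g s) ?_
    rw [← map_mul, ← map_one (AdjoinRoot.mk g), ← hst, map_add, map_mul (AdjoinRoot.mk g) t g,
      AdjoinRoot.mk_self, mul_zero, add_zero, mul_comm]

theorem isUnit_of_isValue {k : Type} [Field k] {ℓ : ℕ} (hℓ : ℓ ≠ 0) {c : k} (hc : c ≠ 0)
    {g : k[X]} {δ γ : AdjoinRoot g} {r : ℕ} {P Q : Fin r → k[X]}
    (hm : ∀ i, IsMumford ℓ c g (P i) (Q i))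
    (h : δ * γ ^ ℓ = ∏ i, descent ℓ c g (P i)) : IsUnit δ ∧ IsUnit γ := by
  have h1 : IsUnit (δ * γ ^ ℓ) := by
    rw [h]
    exact Finset.univ.prod_induction _ IsUnit (fun _ _ => IsUnit.mul) isUnit_one
      fun i _ => descent_isUnit ℓ c hc g (P i) (hm i).2.1
  rw [IsUnit.mul_iff, isUnit_pow_iff hℓ] at h1
  exact h1

theorem isSelmer_of_isValue {F : Type} [Field F] {ℓ g : ℕ} (hℓ : ℓ ≠ 0) {c : F[X]} (hc : c ≠ 0)
    {f : F[X][X]} (hf : (overK f).Monic) (hdeg : (overK f).natDegree = ℓ * g + 1)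
    {δ : AdjoinRoot (overK f)}
    (h : IsValue ℓ (algebraMap F[X] (RatFunc F) c) (overK f) δ) : IsSelmer ℓ c f δ := by
  have hc' : algebraMap F[X] (RatFunc F) c ≠ 0 := by
    rw [Ne, FaithfulSMul.algebraMap_eq_zero_iff]; exact hc
  obtain ⟨r, P, Q, γ, hm, h⟩ := h
  have hu := isUnit_of_isValue hℓ hc' hm h
  refine ⟨hu.1, ?_, fun v => ?_⟩
  · have ha : ℓ ∣ (ℓ - 1) * (overK f).natDegree + 1 := by
      rw [hdeg]
      obtain ⟨j, rfl⟩ : ∃ j, ℓ = j + 1 := ⟨ℓ - 1, by omega⟩
      rw [Nat.add_sub_cancel]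
      exact ⟨j * g + 1, by ring⟩
    choose y hy using fun i => H94.TL.norm_descent (algebraMap F[X] (RatFunc F) c) (overK f) hf ℓ
      (ℓ - 1) ha (P i) (Q i) (hm i).1 (hm i).2.2
    have h1 := congrArg (Algebra.norm (RatFunc F)) h
    rw [map_mul, map_pow, map_prod] at h1
    simp only [descent] at h1
    rw [Finset.prod_congr rfl fun i _ => hy i, Finset.prod_pow] at h1
    have h2 : Algebra.norm (RatFunc F) γ ≠ 0 := (hu.2.map (Algebra.norm (RatFunc F))).ne_zero
    exact ⟨(∏ i, y i) / Algebra.norm (RatFunc F) γ, by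
      rw [div_pow, eq_div_iff (pow_ne_zero _ h2), h1]⟩
  · set ψ := algebraMap (RatFunc F) (v.adicCompletion (RatFunc F)) with hψ
    refine ⟨r, fun i => (P i).map ψ, fun i => (Q i).map ψ, toKv f v γ,
      fun i => ⟨(hm i).1.map _, (hm i).2.1.map (mapRingHom ψ), ?_⟩, ?_⟩
    · have := Polynomial.map_dvd ψ (hm i).2.2
      rwa [Polynomial.map_sub, Polynomial.map_mul, Polynomial.map_pow, Polynomial.map_C] at this
    · have h1 := congrArg (toKv f v) h
      rw [map_mul, map_pow, map_prod] at h1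
      rw [h1]
      refine Finset.prod_congr rfl fun i _ => ?_
      rw [descent, descent, map_mul, map_pow, toKv_mk, toKv_mk, natDegree_map, Polynomial.map_C,
        map_neg, map_pow]
      rfl

/-- the Selmer conditions in terms of a representing polynomial -/
theorem sel_of_isSelmer {F : Type} [Field F] {ℓ : ℕ} {P A B D : F[X]} {Δ : (RatFunc F)[X]}
    (h : IsSelmer ℓ (D * B) (branch P A B) (AdjoinRoot.mk (overK (branch P A B)) Δ)) :
    H83.TN.Sel ℓ (ℓ - 1) P A B D Δ := by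
  obtain ⟨h1, h2, h3⟩ := h
  refine ⟨?_, h2, fun v => ?_⟩
  · obtain ⟨y, hy⟩ := h1.exists_left_inv
    obtain ⟨R, rfl⟩ := AdjoinRoot.mk_surjective y
    rw [← map_mul, ← map_one (AdjoinRoot.mk (overK (branch P A B))), AdjoinRoot.mk_eq_mk] at hy
    obtain ⟨S, hS⟩ := hy
    have h4 : R * Δ + (-S) * overK (branch P A B) = 1 := by linear_combination hS
    exact ⟨R, -S, h4⟩
  · obtain ⟨r, P', Q, γ, hm, hγ⟩ := h3 v
    obtain ⟨G, rfl⟩ := AdjoinRoot.mk_surjective γ
    refine ⟨r, P', Q, G, hm, ?_⟩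
    rw [toKv_mk] at hγ
    have h5 : AdjoinRoot.mk (overKv (branch P A B) v)
        (Δ.map (algebraMap (RatFunc F) (v.adicCompletion (RatFunc F))) * G ^ ℓ) =
        AdjoinRoot.mk (overKv (branch P A B) v)
          (∏ j, (C (-constKv (D * B) v ^ (ℓ - 1))) ^ (P' j).natDegree * P' j) := by
      rw [map_mul, map_pow, hγ, map_prod]
      refine Finset.prod_congr rfl fun j _ => ?_
      rw [descent, map_mul, map_pow]
    exact AdjoinRoot.mk_eq_mk.1 h5

theorem isMumford_linear {k : Type} [Field k] (ℓ : ℕ) (c : k) (g : k[X]) (u b : k)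
    (hg : g.eval u ≠ 0) (h : c * b ^ ℓ = g.eval u) : IsMumford ℓ c g (X - C u) (C b) := by
  refine ⟨monic_X_sub_C u, ?_, ?_⟩
  · refine (irreducible_X_sub_C u).coprime_iff_not_dvd.2 fun h0 => hg ?_
    exact dvd_iff_isRoot.1 h0
  · rw [dvd_iff_isRoot, IsRoot.def, eval_sub, eval_mul, eval_pow, eval_C, eval_C, h, sub_self]

theorem result (F : Type) [Field F] [Finite F] (ℓ : ℕ) (hℓ : ℓ.Prime) (hF : ℓ ∣ Nat.card F - 1)
    (P A B : F[X]) (hP : P.Monic) (hirr : Irreducible P) (g : ℕ) (hg : 1 ≤ g)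
    (hdeg : P.natDegree = ℓ * g + 1) (hAB : IsCoprime A B) (hB : B ≠ 0)
    (r : ℕ) (w : Fin r → F[X]) (hw : ∀ i, Irreducible (w i)) (hW : pullback P A B = ∏ i, w i)
    (hsq : Squarefree (pullback P A B)) :
    -- the Selmer groups of all twists `D` are contained in one group of order at most `ℓ ^ r`
    (∃ T : Fin r → Alg P A B, ∀ D : F[X], IsInert P.natDegree D →
      ∀ δ, IsClass ℓ P A B D δ → ∃ (s : Fin r → ℕ) (γ : Alg P A B),
        δ * ∏ i, T i ^ s i = γ ^ ℓ) ∧
    -- at least `(1 - 1 / ℓ) ^ r` of the residue classes modulo `W` have trivial Selmer groups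
    (1 - 1 / (ℓ : ℚ)) ^ r * Nat.card (AdjoinRoot (pullback P A B))ˣ ≤
      Nat.card (goodClasses ℓ P A B) ∧
    -- `W` irreducible
    (Irreducible (pullback P A B) →
      -- the Selmer group is generated by `θ`, and trivial if `- D B` is no `ℓ`-th power mod `W`
      (∀ D : F[X], IsInert P.natDegree D →
        (∀ δ, IsClass ℓ P A B D δ → ∃ (s : ℕ) (γ : Alg P A B), δ * theta P A B ^ s = γ ^ ℓ) ∧
        ((¬ ∃ y, AdjoinRoot.mk (pullback P A B) (-(D * B)) = y ^ ℓ) → IsTrivial ℓ P A B D)) ∧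
      -- the class of `θ` has order `ℓ`; for these `D` it comes from a point over `K`
      (∀ (s : ℕ) (γ : Alg P A B), theta P A B ^ s = γ ^ ℓ → ℓ ∣ s) ∧
      (∀ D s : F[X], D ≠ 0 → (D * B = -s ^ ℓ ∨
          ∃ c : F, D = C (P.eval c) * (A - C c * B) ^ (ℓ - 1) * s ^ ℓ) →
        IsValue ℓ (algebraMap F[X] (RatFunc F) (D * B)) (overK (branch P A B))
          (theta P A B))) ∧
    -- the curve `D B y ^ ℓ = f(U)` is the curve `D z ^ ℓ = P(t) (A - B t) ^ (ℓ - 1)`
    ∀ D : F[X], IsModel ℓ g P A B D := by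
  have hbranch : branch P A B = H83.TN.fPoly P A B := rfl
  have hpull : pullback P A B = H83.TN.wPoly P A B := rfl
  have hW0 : pullback P A B ≠ 0 := hsq.ne_zero
  have ha : ℓ - 1 + 1 = ℓ * 1 := by have := hℓ.pos; omega
  have hcop : ∀ i j, i ≠ j → IsCoprime (w i) (w j) := by
    intro i j hij
    have h1 : w i * w j ∣ pullback P A B := by
      rw [hW, ← Finset.mul_prod_erase Finset.univ w (Finset.mem_univ i)]
      exact mul_dvd_mul_left _ (Finset.dvd_prod_of_mem w (by simp [Ne.symm hij]))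
    have h2 := hsq.squarefree_of_dvd h1
    exact ((squarefree_mul_iff).1 h2).1.isCoprime
  have hfm : (branch P A B).Monic := H83.TN.fPoly_monic P A B hW0
  have hmon : (overK (branch P A B)).Monic := hfm.map _
  have hnd : (overK (branch P A B)).natDegree = ℓ * g + 1 := by
    rw [overK, hfm.natDegree_map, ← hdeg]
    exact H83.TN.fPoly_natDegree P A B hW0
  -- inert polynomials are nonzero
  have hD0 : ∀ D : F[X], IsInert P.natDegree D → D ≠ 0 := by
    rintro D h rfl
    have h1 := h P hirr (dvd_zero _)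
    rw [Nat.coprime_self, hdeg] at h1
    have := Nat.mul_pos hℓ.pos hg
    omega
  have hclass : ∀ D : F[X], IsInert P.natDegree D → ∀ Δ : (RatFunc F)[X],
      IsClass ℓ P A B D (AdjoinRoot.mk (overK (branch P A B)) Δ) →
      H83.TN.Sel ℓ (ℓ - 1) P A B D Δ := by
    intro D hD Δ h
    rcases h with h | h
    · exact sel_of_isSelmer h
    · exact sel_of_isSelmer
        (isSelmer_of_isValue hℓ.ne_zero (mul_ne_zero (hD0 D hD) hB) hmon hnd h)
  obtain ⟨⟨T, hT⟩, hcount⟩ :=
    H83.TN.finite_main hℓ hF ha hP hirr hdeg hg hAB hB hw hW hcop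
  refine ⟨⟨fun i => AdjoinRoot.mk _ (T i), fun D hD δ hδ => ?_⟩, ?_, fun hWirr => ⟨fun D hD =>
    ⟨fun δ hδ => ?_, fun hn δ hδ => ?_⟩, fun s γ h => ?_, fun D s hDne hs => ?_⟩, ?_⟩
  · obtain ⟨Δ, rfl⟩ := AdjoinRoot.mk_surjective δ
    obtain ⟨s, γ, hγ⟩ := hT D hD Δ (hclass D hD Δ hδ)
    refine ⟨s, γ, ?_⟩
    rw [map_mul, map_prod] at hγ
    simp only [map_pow] at hγ
    exact hγ
  · have h1 : ((ℓ - 1) ^ r * Nat.card (AdjoinRoot (pullback P A B))ˣ : ℕ) ≤ ℓ ^ r *
        Nat.card (goodClasses ℓ P A B) := by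
      refine hcount.trans (Nat.mul_le_mul_left _ ?_)
      have : FiniteDimensional F (AdjoinRoot (pullback P A B)) :=
        (AdjoinRoot.powerBasis hW0).finite
      have : Finite (AdjoinRoot (pullback P A B)) := Module.finite_of_finite F
      refine Nat.card_le_card_of_injective (fun b => ⟨b.1, fun D hDb hD δ hδ => ?_⟩) ?_
      · obtain ⟨Δ, rfl⟩ := AdjoinRoot.mk_surjective δ
        exact b.2 D hDb hD Δ (hclass D hD Δ hδ)
      · rintro ⟨b, hb⟩ ⟨b', hb'⟩ hbb
        apply Subtype.ext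
        have h9 := Subtype.ext_iff.1 hbb
        exact h9
    have hℓ0 : (0 : ℚ) < ℓ := by exact_mod_cast hℓ.pos
    have h2 : (((ℓ - 1 : ℕ) : ℚ)) = (ℓ : ℚ) - 1 := by
      rw [Nat.cast_sub hℓ.one_lt.le, Nat.cast_one]
    have h3 : (1 - 1 / (ℓ : ℚ)) ^ r = ((ℓ - 1 : ℕ) : ℚ) ^ r / (ℓ : ℚ) ^ r := by
      rw [h2, ← div_pow]
      congr 1
      field_simp
    rw [h3, div_mul_eq_mul_div, div_le_iff₀ (pow_pos hℓ0 r), mul_comm _ ((ℓ : ℚ) ^ r)]
    exact_mod_cast h1
  · obtain ⟨Δ, rfl⟩ := AdjoinRoot.mk_surjective δ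
    obtain ⟨s, γ, hγ, -⟩ : ∃ (s : ℕ) (γ : AdjoinRoot (overK (branch P A B))),
        AdjoinRoot.mk (overK (branch P A B)) (Δ * X ^ s) = γ ^ ℓ ∧
        (ℓ ∣ s ∨ ∃ y, AdjoinRoot.mk (pullback P A B) (-(D * B)) = y ^ ℓ) :=
      H83.TN.finite_irr hℓ hF ha hP hirr hdeg hg hAB hB hWirr D hD Δ (hclass D hD Δ hδ)
    refine ⟨s, γ, ?_⟩
    rw [← hγ, map_mul, map_pow, AdjoinRoot.mk_X]
    rfl
  · obtain ⟨Δ, rfl⟩ := AdjoinRoot.mk_surjective δ
    obtain ⟨s, γ, hγ, hs⟩ : ∃ (s : ℕ) (γ : AdjoinRoot (overK (branch P A B))),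
        AdjoinRoot.mk (overK (branch P A B)) (Δ * X ^ s) = γ ^ ℓ ∧
        (ℓ ∣ s ∨ ∃ y, AdjoinRoot.mk (pullback P A B) (-(D * B)) = y ^ ℓ) :=
      H83.TN.finite_irr hℓ hF ha hP hirr hdeg hg hAB hB hWirr D hD Δ (hclass D hD Δ hδ)
    rcases hs with hs | hs
    swap
    · exact absurd hs hn
    obtain ⟨j, rfl⟩ := hs
    -- `θ` is a unit
    have hθ : IsUnit (AdjoinRoot.root (overK (branch P A B))) := by
      have h1 := isMumford_linear ℓ (1 : RatFunc F) (overK (branch P A B)) 0 0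
      have h2 : IsCoprime (X : (RatFunc F)[X]) (overK (branch P A B)) := by
        rw [← sub_zero (X : (RatFunc F)[X]), ← C_0]
        refine (irreducible_X_sub_C (0 : RatFunc F)).coprime_iff_not_dvd.2 fun h0 => ?_
        have h3 := dvd_iff_isRoot.1 h0
        have h4 : (overK (branch P A B)).eval (algebraMap F[X] (RatFunc F) 0) =
            algebraMap F[X] (RatFunc F) ((H83.TN.fPoly P A B).eval 0) := eval_map_apply _ _
        rw [map_zero] at h4
        rw [IsRoot.def, h4, H83.TN.fPoly_eval_zero P A B hW0 hP (by rw [hdeg]; omega),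
          FaithfulSMul.algebraMap_eq_zero_iff] at h3
        exact mul_ne_zero (pow_ne_zero _ (neg_ne_zero.2 one_ne_zero)) (pow_ne_zero _ hW0) h3
      obtain ⟨x, y, hxy⟩ := h2
      have h3 := congrArg (AdjoinRoot.mk (overK (branch P A B))) hxy
      rw [map_add, map_mul, map_mul, AdjoinRoot.mk_self, mul_zero, add_zero, map_one,
        AdjoinRoot.mk_X] at h3
      exact IsUnit.of_mul_eq_one _ (by rw [mul_comm]; exact h3)
    obtain ⟨θ', hθ'⟩ := hθ.exists_right_inv
    refine ⟨γ * θ' ^ j, ?_⟩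
    have h5 : AdjoinRoot.mk (overK (branch P A B)) Δ *
        AdjoinRoot.root (overK (branch P A B)) ^ (ℓ * j) = γ ^ ℓ := by
      rw [← hγ, map_mul, map_pow, AdjoinRoot.mk_X]
    have h6 : AdjoinRoot.root (overK (branch P A B)) ^ (ℓ * j) * (θ' ^ j) ^ ℓ = 1 := by
      rw [← pow_mul, mul_comm ℓ j, ← mul_pow, hθ', one_pow]
    rw [mul_pow, ← h5, mul_assoc, h6, mul_one]
  · exact H83.TN.finite_root hℓ hP hirr hdeg hg hAB hB (ι := Unit)
      (w := fun _ => pullback P A B) (fun _ => hWirr) (by rw [Fintype.prod_unique]; rfl)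
      (fun i j hij => absurd rfl hij) h
  · set κ := algebraMap F[X] (RatFunc F) with hκ
    have hκ0 : ∀ p : F[X], p ≠ 0 → κ p ≠ 0 := by
      intro p hp
      rw [hκ, Ne, FaithfulSMul.algebraMap_eq_zero_iff]; exact hp
    have hWκ := hκ0 _ hW0
    have hm1 : 1 ≤ P.natDegree := by rw [hdeg]; omega
    rcases hs with hs | ⟨c, hs⟩
    · -- the point `U = 0`
      have hs0 : s ≠ 0 := by
        rintro rfl
        rw [zero_pow hℓ.ne_zero, neg_zero] at hs
        exact mul_ne_zero hDne hB hs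
      have hs1 := hκ0 s hs0
      have hf0 : (overK (branch P A B)).eval 0 = (-1) ^ P.natDegree *
          (κ (pullback P A B)) ^ (ℓ * g) := by
        have h4 : (overK (branch P A B)).eval (κ 0) = κ ((H83.TN.fPoly P A B).eval 0) :=
          eval_map_apply _ _
        rw [map_zero] at h4
        rw [h4, H83.TN.fPoly_eval_zero P A B hW0 hP hm1, map_mul, map_pow, map_pow, map_neg,
          map_one, hdeg, Nat.add_sub_cancel]
        rfl
      have hsign : (-1 : RatFunc F) ^ (ℓ * (P.natDegree + 1)) = (-1) ^ (P.natDegree + 1) := by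
        rcases hℓ.eq_two_or_odd' with h2 | h2
        · rw [h2, pow_mul, neg_one_sq, one_pow, hdeg, h2]
          have : (-1 : RatFunc F) ^ (2 * g + 1 + 1) = ((-1) ^ 2) ^ (g + 1) := by
            rw [← pow_mul]; congr 1
          rw [this, neg_one_sq, one_pow]
        · rw [pow_mul, h2.neg_one_pow]
      have hM : IsMumford ℓ (κ (D * B)) (overK (branch P A B)) (X - C 0)
          (C ((-1) ^ (P.natDegree + 1) * κ (pullback P A B) ^ g / κ s)) := by
        refine isMumford_linear _ _ _ _ _ ?_ ?_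
        · rw [hf0]
          exact mul_ne_zero (pow_ne_zero _ (neg_ne_zero.2 one_ne_zero)) (pow_ne_zero _ hWκ)
        · rw [hf0, hs, map_neg, map_pow, div_pow, mul_pow, ← pow_mul, ← pow_mul,
            mul_comm _ ℓ, hsign, mul_comm g ℓ, pow_succ]
          field_simp
      refine ⟨1, fun _ => X - C 0, fun _ => _, AdjoinRoot.mk _ (C (-κ s ^ (ℓ - 1))),
        fun _ => hM, ?_⟩
      rw [Fintype.prod_unique, descent, natDegree_X_sub_C, pow_one, C_0, sub_zero,
        AdjoinRoot.mk_X, mul_comm, ← map_pow, ← C_pow]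
      congr 3
      rw [hs, map_neg, map_pow, neg_pow (κ s ^ (ℓ - 1)), neg_pow (κ s ^ ℓ), ← pow_mul, ← pow_mul,
        mul_comm ℓ (ℓ - 1)]
      obtain ⟨j, hj⟩ : ∃ j, ℓ = j + 1 := ⟨ℓ - 1, by omega⟩
      rw [hj, Nat.add_sub_cancel, pow_succ (-1 : RatFunc F) j]
      ring
    · -- the point `t = c`
      have hne : P.eval c ≠ 0 ∧ A - C c * B ≠ 0 ∧ s ≠ 0 := by
        refine ⟨fun h0 => hDne ?_, fun h0 => hDne ?_, fun h0 => hDne ?_⟩
        · rw [hs, h0, C_0]; ring
        · have : ℓ - 1 ≠ 0 := by have := hℓ.two_le; omega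
          rw [hs, h0, zero_pow this]; ring
        · rw [hs, h0, zero_pow hℓ.ne_zero, mul_zero]
      obtain ⟨hPc, hAc, hs0⟩ := hne
      have hα := hκ0 _ hAc
      have hs1 := hκ0 s hs0
      have hp1 := hκ0 _ (C_ne_zero.2 hPc)
      have hB1 := hκ0 _ hB
      set u := κ (pullback P A B) / κ (A - C c * B) with hu
      have hsub : κ A - κ B * κ (C c) = κ (A - C c * B) := by
        rw [map_sub, map_mul]; ring
      have hfu : (overK (branch P A B)).eval u = κ (pullback P A B) ^ (ℓ * g) *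
          κ B ^ (ℓ * g + 1) * κ (C (P.eval c)) / κ (A - C c * B) ^ (ℓ * g + 1) := by
        have h3 := H83.TN.fPoly_eval₂ κ P A B hm1 hW0 (κ (C c)) (by rw [hsub]; exact hα)
        rw [hsub, hdeg, Nat.add_sub_cancel] at h3
        have h4 : P.eval₂ (κ.comp C) (κ (C c)) = κ (C (P.eval c)) := by
          have h5 := eval₂_at_apply (κ.comp C) (p := P) c
          exact h5
        rw [h4] at h3
        rw [overK, eval_map, eq_div_iff (pow_ne_zero _ hα)]
        exact h3
      have hM : IsMumford ℓ (κ (D * B)) (overK (branch P A B)) (X - C u)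
          (C ((κ (pullback P A B) * κ B) ^ g / (κ (A - C c * B) ^ (g + 1) * κ s))) := by
        refine isMumford_linear _ _ _ _ _ ?_ ?_
        · rw [hfu]
          exact div_ne_zero (mul_ne_zero (mul_ne_zero (pow_ne_zero _ hWκ) (pow_ne_zero _ hB1))
            hp1) (pow_ne_zero _ hα)
        · rw [hfu, hs, map_mul, map_mul, map_mul, map_pow, map_pow]
          set α := κ (A - C c * B) with hαd
          have h6 : (α ^ (g + 1) * κ s) ^ ℓ = α ^ (ℓ * g + 1) * α ^ (ℓ - 1) * κ s ^ ℓ := by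
            rw [mul_pow, ← pow_mul, ← pow_add]
            congr 2
            obtain ⟨j, hj⟩ : ∃ j, ℓ = j + 1 := ⟨ℓ - 1, by have := hℓ.pos; omega⟩
            rw [hj, Nat.add_sub_cancel]
            ring
          have h7 : ((κ (pullback P A B) * κ B) ^ g) ^ ℓ =
              κ (pullback P A B) ^ (ℓ * g) * κ B ^ (ℓ * g) := by
            rw [← pow_mul, mul_comm g ℓ, mul_pow]
          rw [div_pow, h6, h7, pow_succ (κ B) (ℓ * g)]
          field_simp
      obtain ⟨γ, hγ⟩ := H83.TN.finite_value hℓ hF ha hP hirr hdeg hB hW0 c hPc hAc s hs0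
      refine ⟨1, fun _ => X - C u, fun _ => _, γ, fun _ => hM, ?_⟩
      rw [Fintype.prod_unique, descent, natDegree_X_sub_C, pow_one, ← map_mul, hs]
      rw [AdjoinRoot.mk_X] at hγ
      exact hγ.symm
  · intro D M _ _ ι hι t z ht
    have hinj : Function.Injective ι := by
      rw [hι]
      exact (algebraMap (RatFunc F) M).injective.comp
        (FaithfulSMul.algebraMap_injective F[X] (RatFunc F))
    exact H83.TN.model_iff ι P A B D hℓ.one_lt.le hdeg hW0
      ((map_ne_zero_iff ι hinj).2 hW0) ((map_ne_zero_iff ι hinj).2 hB) t z ht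

end Pool.Agent.Results.MP_1bad5e_ag.PullbackTwists
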