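import Pool.Agent.H83.T5.Point
import Pool.Agent.H83.T5.Xor

/-!
# MP_1bad5e_ag: the surfaces `z² = D(x) P(t) (φ(x) - t)`

`F` is a finite field of odd characteristic, `K = F(x)`, `P ∈ F[t]` is monic and irreducible of odd
degree `2 g + 1 ≥ 3`, `φ ∈ F[x]` is a polynomial such that `W = P(φ(x))` is irreducible, and
`D ∈ F[x]` is ANY polynomial all of whose prime factors have degree prime to `2 g + 1`.
Let `J` be the Jacobian (of dimension `g`) of the hyperelliptic curve `z² = D P(t) (φ - t)` over
`K`; its model of odd degree is `D y² = f(U)` with `U = W / (φ - t)`.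

The `2`-Selmer group of `J` has at most two elements, and it vanishes if `-D` is not a square
modulo `W`; if `deg φ` is odd, this is the case for exactly one of the twists `D`, `ε D`,
`ε` a nonsquare of `F`. If `D = -s²` or `D = P(c) (φ - c) s²` with `c ∈ F`, it has exactly two
elements and comes from `J(K)`.
-/

namespace Pool.Agent.Results.MP_1bad5e_ag.TwistPairs

open Polynomial IsDedekindDomain

/-- The monic polynomial `f(U) = W^(m-1) h(U / W)` over `F[x]`, where `m = deg P`, `W = P(φ)` and
`h(u) = u^m P(φ - 1/u) = ∑ p_i (φ u - 1)^i u^(m-i)`, with leading coefficient `W`. Its roots are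
`W / (φ - τ)`, where `τ` runs over the roots of `P`. -/
noncomputable def branch {F : Type} [Field F] (P φ : F[X]) : F[X][X] :=
  (∑ i ∈ Finset.range (P.natDegree + 1), C (C (P.coeff i)) * (C φ * X - 1) ^ i *
    X ^ (P.natDegree - i)).integralNormalization

/-- The polynomial `f` regarded as a polynomial in `U` over `K = F(x)`. -/
noncomputable def overK {F : Type} [Field F] (f : F[X][X]) : (RatFunc F)[X] :=
  f.map (algebraMap F[X] (RatFunc F))

/-- The polynomial `f` regarded as a polynomial in `U` over the completion `K_v`. -/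
noncomputable def overKv {F : Type} [Field F] (f : F[X][X]) (v : HeightOneSpectrum F[X]) :
    (v.adicCompletion (RatFunc F))[X] :=
  (overK f).map (algebraMap (RatFunc F) (v.adicCompletion (RatFunc F)))

/-- The image of `D ∈ F[x]` in the completion `K_v`. -/
noncomputable def constKv {F : Type} [Field F] (D : F[X]) (v : HeightOneSpectrum F[X]) :
    v.adicCompletion (RatFunc F) :=
  algebraMap (RatFunc F) (v.adicCompletion (RatFunc F)) (algebraMap F[X] (RatFunc F) D)

/-- `(A, B)` is the Mumford representation, over the field `k`, of an effective divisor on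
`c y² = g(U)` which is disjoint from the points with `y = 0`: `A` is monic, prime to `g`, and
divides `c B² - g`. -/
def IsMumford {k : Type} [Field k] (c : k) (g A B : k[X]) : Prop :=
  A.Monic ∧ IsCoprime A g ∧ A ∣ C c * B ^ 2 - g

/-- The value `∏ (c U(p) - c θ) = (-c)^r A(θ)` of the `x - θ` map on that divisor, in `k[U]/(g)`,
where `θ` is the class of `U` and `r` is the degree of `A`; the monic equation of the curve
`c y² = g(U)` of degree `d` is `Y² = c^d g(X / c)`, with `X = c U`. -/
noncomputable def descent {k : Type} [Field k] (c : k) (g A : k[X]) : AdjoinRoot g :=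
  AdjoinRoot.mk g (C (-c)) ^ A.natDegree * AdjoinRoot.mk g A

/-- `δ = Δ(θ) ∈ L^*`, `L = K[U]/(f)`, satisfies the conditions of the `2`-Selmer group of the
Jacobian of `D y² = f(U)` at all finite places of `K = F(x)`: its norm to `K` is a square and, for
every prime `v` of `F[x]`, it is in `L ⊗ K_v` a square times a value of the `x - θ` map. -/
structure IsSelmer {F : Type} [Field F] (D : F[X]) (f : F[X][X]) (Δ : (RatFunc F)[X]) : Prop where
  coprime : IsCoprime Δ (overK f)
  norm : IsSquare (Algebra.norm (RatFunc F) (AdjoinRoot.mk (overK f) Δ))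
  locally : ∀ v : HeightOneSpectrum F[X], ∃ A B : (v.adicCompletion (RatFunc F))[X],
    IsMumford (constKv D v) (overKv f v) A B ∧ ∃ γ : AdjoinRoot (overKv f v),
      AdjoinRoot.mk (overKv f v)
        (Δ.map (algebraMap (RatFunc F) (v.adicCompletion (RatFunc F)))) * γ ^ 2 =
      descent (constKv D v) (overKv f v) A

theorem locImTw_of_isSelmer {F : Type} [Field F] {D : F[X]} {f : F[X][X]} {Δ : (RatFunc F)[X]}
    (h : IsSelmer D f Δ) (v : HeightOneSpectrum F[X]) : H94.TC.LocImTw f D v Δ := by
  obtain ⟨P, Q, ⟨hP, hcop, hPQ⟩, γ, hγ⟩ := h.locally v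
  obtain ⟨G, rfl⟩ := AdjoinRoot.mk_surjective γ
  refine ⟨P, Q, G, hP, hcop, hPQ, ?_⟩
  have h1 : AdjoinRoot.mk (overKv f v)
      (Δ.map (algebraMap (RatFunc F) (v.adicCompletion (RatFunc F))) * G ^ 2) =
      AdjoinRoot.mk (overKv f v) ((-C (constKv D v)) ^ P.natDegree * P) := by
    rw [map_mul, map_pow, hγ, descent, map_mul, map_pow, C_neg]
  exact AdjoinRoot.mk_eq_mk.1 h1

/-- the norm of a value of the `x - θ` map is a square -/
theorem isSquare_norm_descent {k : Type} [Field k] (c : k) (g : k[X]) (hg : g.Monic)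
    (hodd : Odd g.natDegree) (P Q : k[X]) (h : IsMumford c g P Q) :
    IsSquare (Algebra.norm k (descent c g P)) := by
  obtain ⟨hP, hcop, hPQ⟩ := h
  by_cases hc : c = 0
  · subst hc
    -- then `P` divides `g`, so `P = 1`
    have h1 : P ∣ g := by
      have := hPQ
      rw [C_0, zero_mul, zero_sub, dvd_neg] at this
      exact this
    have h2 : IsUnit P := hcop.isUnit_of_dvd' dvd_rfl h1
    have h3 : P = 1 := hP.eq_one_of_isUnit h2
    subst h3
    rw [descent, natDegree_one, pow_zero, one_mul, map_one, map_one]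
    exact ⟨1, by rw [one_mul]⟩
  · -- `c² Q² - c g` is a multiple of `P`
    have hfree : Module.Free k (AdjoinRoot g) := hg.free_adjoinRoot
    have hfin : Module.Finite k (AdjoinRoot g) := hg.finite_adjoinRoot
    have hrank : Module.finrank k (AdjoinRoot g) = g.natDegree :=
      finrank_quotient_span_eq_natDegree' hg
    have h2 := H94.TC.norm_eq_resultant P hP (C c * g)
    have h1 : AdjoinRoot.mk P (C c * g) = (AdjoinRoot.mk P (C c * Q)) ^ 2 := by
      rw [← map_pow, eq_comm, AdjoinRoot.mk_eq_mk]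
      obtain ⟨R, hR⟩ := hPQ
      exact ⟨C c * R, by rw [mul_pow]; linear_combination (C c) * hR⟩
    rw [h1, map_pow] at h2
    have h3 : descent c g P = AdjoinRoot.mk g (C (-c)) ^ P.natDegree * AdjoinRoot.mk g P := rfl
    have h4 : Algebra.norm k (AdjoinRoot.mk g (C (-c))) = (-c) ^ g.natDegree := by
      have : AdjoinRoot.mk g (C (-c)) = algebraMap k (AdjoinRoot g) (-c) := rfl
      rw [this, Algebra.norm_algebraMap, hrank]
    rw [h3, map_mul, map_pow, h4, H94.TC.norm_eq_resultant g hg]
    have hne : c ≠ 0 := hc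
    rw [natDegree_C_mul hne, resultant_C_mul_right] at h2
    obtain ⟨l, hl⟩ := hodd
    have h5 : (resultant g P g.natDegree P.natDegree) =
        (-1) ^ (g.natDegree * P.natDegree) * (resultant P g P.natDegree g.natDegree) :=
      resultant_comm g P _ _
    have h6 : ((-c) ^ g.natDegree) ^ P.natDegree *
        resultant g P g.natDegree P.natDegree =
        (c ^ l) ^ P.natDegree * (c ^ l) ^ P.natDegree *
          (c ^ P.natDegree * resultant P g P.natDegree g.natDegree) := by
      rw [h5, neg_pow, mul_pow, ← pow_mul (-1 : k)]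
      have h7 : ((-1 : k)) ^ (g.natDegree * P.natDegree) *
          (-1) ^ (g.natDegree * P.natDegree) = 1 := by
        rw [← mul_pow]; simp
      have h8 : (c ^ g.natDegree) ^ P.natDegree =
          (c ^ l) ^ P.natDegree * (c ^ l) ^ P.natDegree * c ^ P.natDegree := by
        rw [← mul_pow, ← mul_pow, hl]
        congr 1
        ring
      rw [h8]
      linear_combination ((c ^ l) ^ P.natDegree * (c ^ l) ^ P.natDegree * c ^ P.natDegree *
        resultant P g P.natDegree g.natDegree) * h7
    rw [h6, ← h2]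
    exact ⟨(c ^ l) ^ P.natDegree * Algebra.norm k (AdjoinRoot.mk P (C c * Q)), by ring⟩

/-- a Mumford pair over `K` gives a Selmer element -/
theorem isSelmer_descent {F : Type} [Field F] {f : F[X][X]} (hf : (overK f).Monic)
    (hodd : Odd (overK f).natDegree) {D : F[X]} (hD : D ≠ 0) {P Q : (RatFunc F)[X]}
    (hPQ : IsMumford (algebraMap F[X] (RatFunc F) D) (overK f) P Q) :
    IsSelmer D f (C (-algebraMap F[X] (RatFunc F) D) ^ P.natDegree * P) := by
  set DK := algebraMap F[X] (RatFunc F) D with hDK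
  have hDK0 : DK ≠ 0 := by
    rw [hDK, Ne, FaithfulSMul.algebraMap_eq_zero_iff]; exact hD
  have h9 : descent DK (overK f) P = AdjoinRoot.mk (overK f) (C (-DK) ^ P.natDegree * P) := by
    rw [descent, map_mul, map_pow]
  have h10 := isSquare_norm_descent DK (overK f) hf hodd P Q hPQ
  obtain ⟨hP, hcop, hdvd⟩ := hPQ
  rw [h9] at h10
  have hunit : IsUnit (C (-DK) ^ P.natDegree : (RatFunc F)[X]) := by
    refine IsUnit.pow _ ?_
    rw [isUnit_C, isUnit_iff_ne_zero]
    exact neg_ne_zero.2 hDK0
  refine ⟨?_, h10, fun v => ?_⟩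
  · exact (isCoprime_mul_unit_left_left hunit P (overK f)).2 hcop
  · refine ⟨P.map (algebraMap (RatFunc F) (v.adicCompletion (RatFunc F))),
      Q.map (algebraMap (RatFunc F) (v.adicCompletion (RatFunc F))),
      ⟨hP.map _, hcop.map (mapRingHom (algebraMap (RatFunc F) (v.adicCompletion (RatFunc F)))),
        ?_⟩, 1, ?_⟩
    · have := Polynomial.map_dvd (algebraMap (RatFunc F) (v.adicCompletion (RatFunc F))) hdvd
      rwa [Polynomial.map_sub, Polynomial.map_mul, Polynomial.map_pow, Polynomial.map_C] at this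
    · rw [one_pow, mul_one, descent, natDegree_map, Polynomial.map_mul, Polynomial.map_pow,
        Polynomial.map_C, map_mul, map_pow, map_neg]
      rfl

/-- a Mumford pair of degree one -/
theorem isMumford_linear {k : Type} [Field k] (c : k) (g : k[X]) (u b : k) (hg : g.eval u ≠ 0)
    (h : c * b ^ 2 = g.eval u) : IsMumford c g (X - C u) (C b) := by
  refine ⟨monic_X_sub_C u, ?_, ?_⟩
  · refine (irreducible_X_sub_C u).coprime_iff_not_dvd.2 fun h0 => hg ?_
    exact dvd_iff_isRoot.1 h0
  · rw [dvd_iff_isRoot, IsRoot.def, eval_sub, eval_mul, eval_pow, eval_C, eval_C, h, sub_self]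

theorem not_isSquare_of_mul {k : Type} [Field k] (c : k) (hc : c ≠ 0) (g A B : k[X])
    (h : IsMumford c g A B) (h1 : ¬ IsSquare (AdjoinRoot.root g))
    (h2 : IsSquare (AdjoinRoot.root g * descent c g A)) : ¬ IsSquare (descent c g A) := by
  rintro ⟨y, hy⟩
  obtain ⟨z, hz⟩ := h2
  have hu : IsUnit (descent c g A) := by
    rw [descent]
    refine IsUnit.mul (IsUnit.pow _ ?_) ?_
    · exact (isUnit_C.2 (isUnit_iff_ne_zero.2 (neg_ne_zero.2 hc))).map (AdjoinRoot.mk g)
    · obtain ⟨a, b, hab⟩ := h.2.1
      refine IsUnit.of_mul_eq_one (AdjoinRoot.mk g a) ?_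
      have h3 := congrArg (AdjoinRoot.mk g) hab
      rw [map_add, map_mul, map_mul, AdjoinRoot.mk_self, mul_zero, add_zero, map_one] at h3
      rw [mul_comm]; exact h3
  rw [hy] at hu hz
  obtain ⟨w, hw⟩ := (isUnit_of_mul_isUnit_left hu).exists_left_inv
  apply h1
  refine ⟨z * w, ?_⟩
  linear_combination (w ^ 2) * hz - (AdjoinRoot.root g) * (w * y + 1) * hw

theorem result (F : Type) [Field F] [Finite F] (h2 : (2 : F) ≠ 0) (g : ℕ) (hg : 1 ≤ g)
    (P φ D : F[X]) (hP : P.Monic) (hdeg : P.natDegree = 2 * g + 1) (hirr : Irreducible P)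
    (hW : Irreducible (P.comp φ))
    (hD : ∀ Q : F[X], Irreducible Q → Q ∣ D → Nat.Coprime Q.natDegree (2 * g + 1)) :
    -- at most two Selmer elements up to squares, and only one if `-D` is not a square modulo `W`
    (∀ Δ : (RatFunc F)[X], IsSelmer D (branch P φ) Δ →
      IsSquare (AdjoinRoot.mk (overK (branch P φ)) Δ) ∨
      (IsSquare (AdjoinRoot.mk (P.comp φ) (-D)) ∧
        IsSquare (AdjoinRoot.mk (overK (branch P φ)) (X * Δ)))) ∧
    -- the same for the values of the descent map on the points of `J` over `K`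
    (∀ A B : (RatFunc F)[X],
      IsMumford (algebraMap F[X] (RatFunc F) D) (overK (branch P φ)) A B →
      IsSquare (descent (algebraMap F[X] (RatFunc F) D) (overK (branch P φ)) A) ∨
      (IsSquare (AdjoinRoot.mk (P.comp φ) (-D)) ∧ IsSquare (AdjoinRoot.root (overK (branch P φ)) *
        descent (algebraMap F[X] (RatFunc F) D) (overK (branch P φ)) A))) ∧
    -- exactly one of the twists `D`, `ε D` has `-D` not a square modulo `W`
    (∀ ε : F, ¬ IsSquare ε → Odd φ.natDegree →
      Xor (IsSquare (AdjoinRoot.mk (P.comp φ) (-D)))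
        (IsSquare (AdjoinRoot.mk (P.comp φ) (-(C ε * D))))) ∧
    -- `θ` is not a square; for these `D` it is the class of a point of `J` over `K`
    ¬ IsSquare (AdjoinRoot.root (overK (branch P φ))) ∧
    (∀ s : F[X], (D = -s ^ 2 ∨ ∃ c : F, D = C (P.eval c) * (φ - C c) * s ^ 2) →
      ∃ A B : (RatFunc F)[X],
        IsMumford (algebraMap F[X] (RatFunc F) D) (overK (branch P φ)) A B ∧
        ¬ IsSquare (descent (algebraMap F[X] (RatFunc F) D) (overK (branch P φ)) A) ∧
        IsSquare (AdjoinRoot.root (overK (branch P φ)) *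
          descent (algebraMap F[X] (RatFunc F) D) (overK (branch P φ)) A)) ∧
    -- the curve `D y² = f(U)` is the curve `z² = D P(t) (φ - t)`
    (∀ (M : Type) [Field M] [Algebra (RatFunc F) M] (ι : F[X] →+* M),
      ι = (algebraMap (RatFunc F) M).comp (algebraMap F[X] (RatFunc F)) → ∀ t z : M, t ≠ ι φ →
      (z ^ 2 = ι D * P.eval₂ (ι.comp C) t * (ι φ - t) ↔
        ι D * (ι (P.comp φ) ^ g * z / (ι D * (ι φ - t) ^ (g + 1))) ^ 2 =
          (branch P φ).eval₂ ι (ι (P.comp φ) / (ι φ - t)))) := by
  have hD0 : D ≠ 0 := by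
    rintro rfl
    have h := hD P hirr (dvd_zero _)
    rw [hdeg, Nat.coprime_self] at h
    omega
  have hWdeg : (P.comp φ).natDegree = (2 * g + 1) * φ.natDegree := by
    rw [natDegree_comp, hdeg]
  have hWD : ¬ P.comp φ ∣ D := by
    intro h
    have h1 := hD _ hW h
    rw [hWdeg] at h1
    have h3 := Nat.Coprime.coprime_dvd_left (Dvd.intro _ rfl : 2 * g + 1 ∣ (2 * g + 1) * _) h1
    rw [Nat.coprime_self] at h3
    omega
  have hbranch : branch P φ = H83.T5.fPoly P φ := rfl
  have h1 : ∀ Δ : (RatFunc F)[X], IsSelmer D (branch P φ) Δ →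
      IsSquare (AdjoinRoot.mk (overK (branch P φ)) Δ) ∨
      (IsSquare (AdjoinRoot.mk (P.comp φ) (-D)) ∧
        IsSquare (AdjoinRoot.mk (overK (branch P φ)) (X * Δ))) := by
    intro Δ h
    exact H83.T5.finite_main h2 hP hirr (by rw [hdeg]; exact ⟨g, rfl⟩) hW
      (by rw [hdeg]; exact hD) hWD Δ (locImTw_of_isSelmer h) h.coprime h.norm
  have hoddP : Odd P.natDegree := by rw [hdeg]; exact ⟨g, rfl⟩
  have hroot : ¬ IsSquare (AdjoinRoot.root (overK (branch P φ))) :=
    H83.T5.finite_root hP hirr (by omega) hW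
  have hDK : algebraMap F[X] (RatFunc F) D ≠ 0 := by
    rw [Ne, FaithfulSMul.algebraMap_eq_zero_iff]; exact hD0
  set κ := algebraMap F[X] (RatFunc F) with hκ
  have hκ0 : ∀ p : F[X], p ≠ 0 → κ p ≠ 0 := by
    intro p hp
    rw [hκ, Ne, FaithfulSMul.algebraMap_eq_zero_iff]; exact hp
  refine ⟨h1, fun A B hAB => ?_, fun ε hε hφ => ?_, hroot, fun s hs => ?_,
    fun M _ _ ι hι t z ht => ?_⟩
  · have hmon : (branch P φ).Monic := H83.T5.fPoly_monic P φ hW.ne_zero
    have hnd : (branch P φ).natDegree = 2 * g + 1 := by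
      rw [← hdeg]
      exact H83.T5.fPoly_natDegree P φ hW.ne_zero
    have h3 := isSelmer_descent (hmon.map _)
      (by rw [overK, hmon.natDegree_map, hnd]; exact ⟨g, rfl⟩) hD0 hAB
    have h4 := h1 _ h3
    have h5 : AdjoinRoot.mk (overK (branch P φ))
        (C (-algebraMap F[X] (RatFunc F) D) ^ A.natDegree * A) =
        descent (algebraMap F[X] (RatFunc F) D) (overK (branch P φ)) A := by
      rw [descent, map_mul, map_pow]
    rw [map_mul (AdjoinRoot.mk (overK (branch P φ))) X, h5, AdjoinRoot.mk_X] at h4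
    exact h4
  · refine H83.T5.xor_twist hW ?_ hWD hε
    rw [hWdeg]
    exact Odd.mul ⟨g, rfl⟩ hφ
  · rcases hs with hs | ⟨c, hs⟩
    · -- the point `U = 0`
      have hs0 : s ≠ 0 := by rintro rfl; apply hD0; rw [hs]; ring
      have hs1 := hκ0 s hs0
      have hf0 : (overK (branch P φ)).eval 0 = -(κ (P.comp φ)) ^ (2 * g) := by
        have h3 := H83.T5.fPoly_coeff_zero P φ hW.ne_zero hP hoddP
        have h4 : (overK (branch P φ)).eval (κ 0) = κ ((H83.T5.fPoly P φ).eval 0) :=
          eval_map_apply _ _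
        rw [map_zero] at h4
        rw [h4, h3, map_neg, map_pow, hdeg]
        congr 2
      have hM : IsMumford (κ D) (overK (branch P φ)) (X - C 0) (C (κ (P.comp φ) ^ g / κ s)) := by
        refine isMumford_linear _ _ _ _ ?_ ?_
        · rw [hf0]
          exact neg_ne_zero.2 (pow_ne_zero _ (hκ0 _ hW.ne_zero))
        · rw [hf0, hs, map_neg, map_pow]
          field_simp
          ring
      have hsq : IsSquare (AdjoinRoot.root (overK (branch P φ)) *
          descent (κ D) (overK (branch P φ)) (X - C 0)) := by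
        refine ⟨AdjoinRoot.root (overK (branch P φ)) *
          AdjoinRoot.mk (overK (branch P φ)) (C (κ s)), ?_⟩
        rw [descent, natDegree_X_sub_C, pow_one, C_0, sub_zero, AdjoinRoot.mk_X, hs, map_neg κ,
          neg_neg, map_pow κ, C_pow, map_pow]
        ring
      exact ⟨_, _, hM, not_isSquare_of_mul _ hDK _ _ _ hM hroot hsq, hsq⟩
    · -- the point `t = c`
      have hne : C (P.eval c) ≠ 0 ∧ φ - C c ≠ 0 ∧ s ≠ 0 := by
        refine ⟨?_, ?_, ?_⟩ <;> intro h0 <;> apply hD0 <;> rw [hs, h0] <;> ring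
      obtain ⟨hPc, hφc, hs0⟩ := hne
      have hφ1 := hκ0 _ hφc
      have hs1 := hκ0 _ hs0
      have hW1 := hκ0 _ hW.ne_zero
      have hPc1 := hκ0 _ hPc
      set u := κ (P.comp φ) / κ (φ - C c) with hu
      have hfu : (overK (branch P φ)).eval u * κ (φ - C c) ^ (2 * g + 1) =
          κ (P.comp φ) ^ (2 * g) * κ (C (P.eval c)) := by
        have h3 := H83.T5.fPoly_eval₂ κ P φ (by omega) hW.ne_zero (κ (C c))
          (by rw [← map_sub]; exact hφ1)
        rw [← map_sub, hdeg] at h3
        have h4 : P.eval₂ (κ.comp C) (κ (C c)) = κ (C (P.eval c)) := by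
          have h5 := eval₂_at_apply (κ.comp C) (p := P) c
          exact h5
        rw [h4] at h3
        rw [overK, eval_map]
        exact h3
      have hfu' : (overK (branch P φ)).eval u =
          κ (P.comp φ) ^ (2 * g) * κ (C (P.eval c)) / κ (φ - C c) ^ (2 * g + 1) := by
        rw [eq_div_iff (pow_ne_zero _ hφ1)]; exact hfu
      have hM : IsMumford (κ D) (overK (branch P φ)) (X - C u)
          (C (κ (P.comp φ) ^ g / (κ (φ - C c) ^ (g + 1) * κ s))) := by
        refine isMumford_linear _ _ _ _ ?_ ?_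
        · rw [hfu']
          exact div_ne_zero (mul_ne_zero (pow_ne_zero _ hW1) hPc1) (pow_ne_zero _ hφ1)
        · rw [hfu', hs, map_mul κ, map_mul κ, map_pow κ]
          field_simp
          ring
      have hsq : IsSquare (AdjoinRoot.root (overK (branch P φ)) *
          descent (κ D) (overK (branch P φ)) (X - C u)) := by
        have h3 := H83.T5.finite_value hP hirr hoddP hW c
          (by rw [Ne, ← C_eq_zero]; exact hPc) hφc s
        rw [← hs, map_mul, map_mul, AdjoinRoot.mk_X] at h3
        rw [descent, natDegree_X_sub_C, pow_one]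
        exact h3
      exact ⟨_, _, hM, not_isSquare_of_mul _ hDK _ _ _ hM hroot hsq, hsq⟩
  · have hinj : Function.Injective ι := by
      rw [hι]
      exact (algebraMap (RatFunc F) M).injective.comp
        (FaithfulSMul.algebraMap_injective F[X] (RatFunc F))
    exact H83.T5.model_iff ι P φ D g hdeg hW.ne_zero
      ((map_ne_zero_iff ι hinj).2 hW.ne_zero) ((map_ne_zero_iff ι hinj).2 hD0) t z ht

end Pool.Agent.Results.MP_1bad5e_ag.TwistPairs
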